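import Pool.Agent.R205.DI.Step
/-!
# Unions of interpolation sets for distal sequences

If `E` is an interpolation set for distal sequences and `F` is finite, or more generally another
interpolation set for distal sequences, then `E ∪ F` is an interpolation set for distal sequences.
-/
namespace Pool.Agent.Results.MP_009caa_an.UnionOfInterpolationSets
open Set Filter Topology Pool.Agent.R205.DI

/-- `T` is distal: `inf_n d (T^n y, T^n z) > 0` for all distinct `y`, `z`. -/
def IsDistal {X : Type} [MetricSpace X] (T : X → X) : Prop :=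
  ∀ y z : X, y ≠ z → 0 < ⨅ n : ℕ, dist (T^[n] y) (T^[n] z)

/-- a distal sequence `ψ n = F (T^n x)`, where `T` is a continuous distal map of a compact metric
space `X`, `x` is a point of `X` and `F` is a continuous function. -/
def DistalSequence (ψ : ℕ → ℂ) : Prop :=
  ∃ (X : Type) (_ : MetricSpace X) (_ : CompactSpace X) (T : X → X) (x : X) (F : X → ℂ),
    Continuous T ∧ IsDistal T ∧ Continuous F ∧ ∀ n : ℕ, ψ n = F (T^[n] x)

/-- every bounded function on `E` is the restriction of a distal sequence. -/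
def IsInterpolationSet (E : Set ℕ) : Prop :=
  ∀ f : E → ℂ, (∃ B : ℝ, ∀ n : E, ‖f n‖ ≤ B) → ∃ ψ : ℕ → ℂ, DistalSequence ψ ∧ ∀ n : E, ψ n = f n

theorem isDistal_iff {X : Type} [MetricSpace X] (T : X → X) : IsDistal T ↔ DistalMap T := by
  constructor
  · intro h y z hyz
    refine ⟨_, h y z hyz, fun n => ?_⟩
    exact ciInf_le ⟨0, by rintro _ ⟨n, rfl⟩; exact dist_nonneg⟩ n
  · intro h y z hyz
    obtain ⟨ε, hε, h1⟩ := h y z hyz
    exact lt_of_lt_of_le hε (le_ciInf h1)

theorem distalSequence_iff (ψ : ℕ → ℂ) : DistalSequence ψ ↔ IsD ψ := by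
  constructor
  · rintro ⟨X, iM, iC, T, x, F, h1, h2, h3, h4⟩
    exact ⟨X, iM, iC, T, x, F, h1, (isDistal_iff T).1 h2, h3, h4⟩
  · rintro ⟨X, iM, iC, T, x, F, h1, h2, h3, h4⟩
    exact ⟨X, iM, iC, T, x, F, h1, (isDistal_iff T).2 h2, h3, h4⟩

theorem int_of_isInterpolationSet {E : Set ℕ} (h : IsInterpolationSet E) : Int01 E := by
  intro f hf
  obtain ⟨ψ, h1, h2⟩ := h (fun n => (f n : ℂ)) ⟨1, fun n => by
    rw [Complex.norm_real, Real.norm_eq_abs, abs_of_nonneg (hf n).1]
    exact (hf n).2⟩
  rw [distalSequence_iff] at h1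
  refine ⟨fun n => (ψ n).re, h1.comp Complex.continuous_re, fun n hn => ?_⟩
  simp only
  rw [h2 ⟨n, hn⟩]
  simp

theorem isInterpolationSet_of_int {E : Set ℕ} (h : Int01 E) : IsInterpolationSet E := by
  classical
  rintro f ⟨B, hB⟩
  -- a positive bound
  obtain ⟨B', hB'0, hB'⟩ : ∃ B' : ℝ, 0 < B' ∧ ∀ n : E, ‖f n‖ ≤ B' :=
    ⟨max B 1, by positivity, fun n => (hB n).trans (le_max_left _ _)⟩
  have key : ∀ g : E → ℝ, (∀ n, |g n| ≤ B') → ∃ ψ : ℕ → ℝ, IsD ψ ∧ ∀ n : E, ψ n = g n := by
    intro g hg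
    obtain ⟨ψ, h1, h2⟩ := h (fun n => if hn : n ∈ E then (g ⟨n, hn⟩ + B') / (2 * B') else 0) (by
      intro n
      split_ifs with hn
      · have := abs_le.1 (hg ⟨n, hn⟩)
        constructor
        · apply div_nonneg <;> linarith
        · rw [div_le_one (by positivity)]
          linarith
      · exact ⟨le_rfl, zero_le_one⟩)
    refine ⟨fun n => 2 * B' * ψ n - B', h1.comp (G := fun t : ℝ => 2 * B' * t - B') (by fun_prop),
      fun n => ?_⟩
    simp only
    rw [h2 n n.2, dif_pos n.2]
    field_simp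
    ring
  obtain ⟨ψ₁, h1, h2⟩ := key (fun n => (f n).re) fun n => (Complex.abs_re_le_norm _).trans (hB' n)
  obtain ⟨ψ₂, h3, h4⟩ := key (fun n => (f n).im) fun n => (Complex.abs_im_le_norm _).trans (hB' n)
  refine ⟨fun n => (ψ₁ n : ℂ) + (ψ₂ n : ℂ) * Complex.I, ?_, fun n => ?_⟩
  · rw [distalSequence_iff]
    exact h1.map2 h3 (G := fun s t : ℝ => (s : ℂ) + (t : ℂ) * Complex.I) (by fun_prop)
  · simp only
    rw [h2, h4, Complex.re_add_im]

/-- If `E` is an interpolation set for distal sequences and `F` is finite or an interpolation set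
for distal sequences, then `E ∪ F` is an interpolation set for distal sequences. -/
theorem result (E F : Set ℕ) (hE : IsInterpolationSet E) (hF : F.Finite ∨ IsInterpolationSet F) :
    IsInterpolationSet (E ∪ F) := by
  apply isInterpolationSet_of_int
  refine int_union (int_of_isInterpolationSet hE) ?_
  rcases hF with hF | hF
  · exact int_finite hF
  · exact int_of_isInterpolationSet hF

end Pool.Agent.Results.MP_009caa_an.UnionOfInterpolationSets
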